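import Pool.Agent.TH683.CP.Fin

set_option autoImplicit false

/-!
# Counting with few witness bits, and the precision of approximate counting

Polynomial time is Mathlib's `Turing.TM2ComputableInPolyTime`; polynomial-time oracle algorithms,
the polynomial hierarchy and `PP^PH` relative to an oracle are defined in
`Pool.Agent.H620R2.Gauge.Defs`, `Pool.Agent.H620R2.Gauge2.Defs` and `Pool.Agent.H943R3.PP.Defs`;
`#P` relative to an oracle and the counting function are defined in `Pool.Agent.TH683.CP.Defs`.

The function `cf A` counts, for `z = 1^j 0 y`, the strings `w` of length `j` with `z w` in the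
oracle. So it is a function in `#P^A` with `j` witness bits. Relative to almost every oracle:

* No language in `PP^PH/poly` predicts the parity of `cf A` on the inputs `1^j 0 y`, `|y| = m`,
  with an advantage of more than `2^(-j/c)`, as soon as the number `j` of the witness bits is at
  least `c log m`. (With `O(log m)` witness bits one can count by brute force.)
* No function `g` such that the parity of the nearest integer to `g` is in `PP^PH/poly`
  approximates `cf A` with relative error `2^(-j-2)` on more than the same part of the inputs.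
* So the relative error of such a function `g` is at least `n^(-C)` at all large lengths `n`:
  the precision of Stockmeyer's approximate counting (relative error `n^(-C)`, for every `C`, in
  the second level of the hierarchy) is the best possible, even for all levels of the hierarchy.
-/

namespace Pool.Agent.Results.MP_4ed1f9_lc.CountingPrecision

open Pool.Agent.H620R2.Gauge Pool.Agent.H943R3.PP Pool.Agent.TH683.CP

theorem result :
    (∀ A : Oracle, IsSharpP A (cf A)) ∧
    ∀ᵐ A ∂ranO,
      (∀ L : Set (List Bool), WithAdvice (IsPPPH A) L → ∃ c : ℕ, 1 ≤ c ∧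
        ∀ m j : ℕ, c * Nat.log 2 m ≤ j → j ≤ m →
          (Nat.card {y : Fin m → Bool // (cod j (List.ofFn y) ∈ L ↔
            Odd (cf A (cod j (List.ofFn y))))} : ℝ) ≤ (1 / 2 + 2 ^ (-(j : ℝ) / c)) * 2 ^ m) ∧
      (∀ g : List Bool → ℝ, WithAdvice (IsPPPH A) {z | Odd (round (g z))} →
        (∃ c : ℕ, 1 ≤ c ∧ ∀ m j : ℕ, c * Nat.log 2 m ≤ j → j ≤ m →
          (Nat.card {y : Fin m → Bool // |g (cod j (List.ofFn y)) - cf A (cod j (List.ofFn y))| ≤
            cf A (cod j (List.ofFn y)) / 2 ^ (j + 2)} : ℝ) ≤
              (1 / 2 + 2 ^ (-(j : ℝ) / c)) * 2 ^ m) ∧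
        ∀ δ : ℕ → ℝ, (∀ z, |g z - cf A z| ≤ δ z.length * cf A z) →
          ∃ C n₀ : ℕ, ∀ n ≥ n₀, 1 / (n : ℝ) ^ C ≤ δ n) := by
  refine ⟨isSharpP_cf, ?_⟩
  filter_upwards [ae_parity] with A hA
  refine ⟨hA, fun g hg => ?_⟩
  obtain ⟨c, hc, h⟩ := hA _ hg
  have h' : ∀ m j : ℕ, c * Nat.log 2 m ≤ j → j ≤ m →
      (Nat.card {y : Fin m → Bool // |g (cod j (List.ofFn y)) - cf A (cod j (List.ofFn y))| ≤
        cf A (cod j (List.ofFn y)) / 2 ^ (j + 2)} : ℝ) ≤ (1 / 2 + 2 ^ (-(j : ℝ) / c)) * 2 ^ m :=
    fun m j h1 h2 => (approx_card m j).trans (h m j h1 h2)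
  exact ⟨⟨c, hc, h'⟩, fun δ hδ => error_ge hc h' hδ⟩

end Pool.Agent.Results.MP_4ed1f9_lc.CountingPrecision
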