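import Pool.Agent.TH706.ST.Count

/-!
# Counting the models of 2-CNF formulas: accesses times memory is quadratic, with an unlimited stack

The model is a non-uniform randomised program with random access to the input, with `s` nodes (a
memory of `log s` bits) and with a stack (pushdown store) of unlimited height for arbitrary symbols;
the number of steps is unlimited too. By the non-uniform version of Cook's theorem (1971) the
programs of this kind with polynomially many nodes compute exactly what Boolean circuits of
polynomial size compute. So the number of the models of a CNF formula (equivalently, by Valiant's
theorem, of a 2-CNF formula) can be computed by circuits of polynomial size if and only if it can be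
computed by programs of this kind with polynomially many nodes. The only resource that is bounded
here, apart from the number of the nodes, is the number `T` of the reads of bits of the formula and
of the writes of digits of the number of the models. The theorem says `T * (log s + π) ≥ c M ^ 2` for
2-CNF formulas with `M` clauses, even if the program is right only with probability `2 ^ (- π)`.
So programs with polynomially many nodes need `Ω (M ^ 2 / log M)` accesses, and programs with
`O (M)` accesses need `2 ^ (Ω (M))` nodes.

Proof. For numbers `A`, `X`, `B` with `2 m + 1` digits (the leading ones are `1`) there is a 2-CNF
formula with `18 m + 16` clauses and `A X + B` models; the digits are signs of its literals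
(`Pool.Agent.TH706.ST.models_form`). The `m` digits `m, ..., 2 m - 1` of `A X + B` are pairwise
independent hash values in a robust sense (Mansour, Nisan and Tiwari 1990): after `k` digits of `A`,
`X`, `B` have been fixed, the probability that `r` given ones of them have given values is still at
most `2 ^ (1 - r)`, if `k + r ≤ m` (`Pool.Agent.TH706.ST.hash_bound`). A computation with a stack is
cut into few pieces which are adaptive procedures with few reads (`Pool.Agent.W896.MO.pieces` in the
starting files); one of them has to write many of these digits.
-/

set_option autoImplicit false

namespace Pool.Agent.Results.MP_4ed1f9_lc.CountingTwoSat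

open Pool.Agent.W896.MO Pool.Agent.TH706.ST

/-- There is a constant `D` such that for all `M ≥ 1` and `ℓ` with `M ≤ 2 ^ ℓ` there is a nonempty
set `W` of 2-CNF formulas with `M` clauses and variables named by words of `ℓ` bits with the
following property. Let `P r`, `r ∈ R`, be programs with a stack, and let `T` and `π` be such that
for random `r ∈ R` and `w ∈ W` the program `P r` computes the number of the models of `w` in binary,
with at most `T` reads and writes, with probability at least `2 ^ (- π)`. Then
`M ^ 2 ≤ D T (⌊log₂ s⌋ + π + 1)` for the number `s` of nodes of some `P r`. -/
theorem result : ∃ D : ℕ, 0 < D ∧ ∀ M ℓ : ℕ, 1 ≤ M → M ≤ 2 ^ ℓ →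
    ∃ W : Finset (Idx2 M ℓ → Bool), W.Nonempty ∧
      ∀ (T π : ℕ) (R : Type) [Fintype R] [Nonempty R]
        (P : R → Prog (Idx2 M ℓ) (Fin (2 * M + 1)) Bool),
        Nat.card R * W.card ≤ 2 ^ π * Nat.card {u : R × W // Counts (P u.1) u.2.1 T} →
        ∃ r, M ^ 2 ≤ D * (T * (Nat.log 2 (Fintype.card (P r).State) + π + 1)) :=
  count_main

end Pool.Agent.Results.MP_4ed1f9_lc.CountingTwoSat
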