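import Pool.Agent.TH762.RX.Thm

/-!
# If `#SAT` is not computable in polynomial time, not even one value of one digit can be excluded

Polynomial time is Mathlib's `Turing.TM2ComputableInPolyTime`, for functions on bit strings.

Suppose that a polynomial-time algorithm gets a formula `y`, a small prime `p` and `1 ^ n`, where
`|y| ≤ n` and `p ^ b ≤ n`, and `O(log n)` bits of advice, and says something very little about the
number `f y` of satisfying assignments: it outputs a position `j < p ^ b` and a digit `d < p` such
that the digit number `j` of `f y` in base `p` is not `d`. The algorithm may choose the position. A
random output is right with probability about `1 - 1 / p`. The theorem: then `#SAT` can be computed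
in polynomial time, so `#P ⊆ FP`.

More generally let `f` be hard for `#P` under reductions which preserve the value modulo all powers
of all large primes (`ModHard`), consider `m` strings `y₁, ..., y_m` of length at most `n`, where
`m = m (n, p)` is any number at most polynomial in `n`, and suppose that the algorithm excludes one
member of a family of at most `p ^ b + 1` explicit vectors of residues modulo `p ^ (p ^ b)` as the
vector `(f y₁, ..., f y_m)` modulo `p ^ (p ^ b)`. Then `#P ⊆ FP`.

Special cases. `m = 1` and modulus `p`: one residue class modulo `p` can be excluded. For modulus `p`
an algorithm which computes `p - 1` candidates for `f y` modulo `p` excludes a residue class; Cai and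
Hemachandra (1989, 1991) proved that `#P ⊆ FP` if polynomially many candidates for `f y` can be
computed.

Proof. Let `c (x, u)` be the number of certificates of `x` with the prefix `u`. Let `K` be a list of
`p ^ b + 1` candidates for the vector of the residues `c (x, u) mod p`, for `u` in a list of nodes of
the tree of prefixes. There is a `#P` function whose value at `(x, nodes, K, m, i)` is, modulo
`p ^ (p ^ b)`, the entry `i` of the vector number `l` of the family, where `l` is the number of the
right candidate in `K`: by the theorem of Fermat and a polynomial of Toda one can sum over `K` and
multiply the entry with the indicator that the candidate is right. So the algorithm excludes the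
number of a wrong candidate, and short lists of candidates can be computed. They are used as in the
theorem of Cai and Hemachandra: at most `p ^ (2 b)` nodes of each level separate the candidates for
the children of the separating nodes of the previous level, at the leaves the values are known, and
one goes back up the tree. Wrong advice is refuted: if two advice numbers give different values at
the root, one follows the path on which they differ, and one of them makes an error that can be
seen there. Finally the Chinese remainder theorem for polynomially many primes gives the number.
-/

set_option autoImplicit false

namespace Pool.Agent.Results.MP_4ed1f9_lc.ExcludedDigit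

open Pool.Agent.NPC Pool.Agent.NPC.Cnt Pool.Agent.TH762.RX

/-- **The excluded digit.** The following are equivalent: `#SAT` is computable in polynomial time;
one value of one low digit of `#SAT`, in a position of one's own choice, can be excluded for all
small primes; the same for some function which is hard for `#P`; one vector of some explicit family
of vectors of residues modulo powers of small primes can be excluded for some function which is hard
for `#P`; `#P ⊆ FP`. -/
theorem result : List.TFAE
    [FP sharpSat,
      DigitExcluded sharpSat,
      ∃ f : List Bool → ℕ, ModHard f ∧ DigitExcluded f,
      ∃ f t : List Bool → ℕ, ModHard f ∧ PolyTime (fun z => bits (t z)) ∧ VectorExcluded f t,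
      ∀ g : List Bool → ℕ, SharpP g → FP g] := by
  have h := exclusion_law
  tfae_have 1 → 2 := fun h1 => digitExcluded_of_fp h1
  tfae_have 2 → 5 := fun h1 => (h.out 1 0).1 h1
  tfae_have 5 → 3 := fun h1 => (h.out 0 2).1 h1
  tfae_have 3 → 4 := fun h1 => (h.out 2 3).1 h1
  tfae_have 4 → 5 := fun h1 => (h.out 3 0).1 h1
  tfae_have 5 → 1 := fun h1 => h1 _ sharpSat_sharpP
  tfae_finish

end Pool.Agent.Results.MP_4ed1f9_lc.ExcludedDigit
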