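import Pool.Agent.TH837.UI.Graph

/-!
# MP_4ed1f9_lc: perfect matchings of unit interval graphs

`CNF ℕ` and `satCount` (the number of satisfying assignments of the variables that occur, variable
names are natural numbers in binary) are defined in `Pool/Agent/H527R2/NM.lean`; the classes
`SharpP` and `SharpPHard`, Turing reductions and `strFn` in `Pool/Agent/H527R2/SharpP.lean`;
`PolyTime` (Mathlib Turing machines) and the bit code `bits` in `Pool/Agent/NPC/Defs.lean`; the
interval graph `intervalGraph l` of a list of intervals and its number `pm l` of perfect matchings in
`Pool/Agent/H549R2/PM8.lean`; the graph `matGraph A` of an adjacency matrix, `IsAdjMatrix`,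
`IsUnitInterval`, `numPM` and `pmUnit` in `Pool/Agent/TH837/UI/Graph.lean`, `UnitLen` in
`Pool/Agent/TH837/UI/RedB.lean`.

The proof.  A word of levels (natural numbers) codes a unit interval graph: a vertex of level `a` is
adjacent to the vertices of levels `a` and `a - 1` on its right.
* The number of perfect matchings is the constant term of a product of operators
  `x_a + ∂_a + ∂_{a-1}` (`Ops`, `Match`).
* With `N` additional vertices of each even level at the right end the number, divided by a power
  of `(N - 1)!!`, is a polynomial in `N`.  Its value at `N = -1` is, up to sign, the constant term of a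
  product of operators `∂_m` (level `2 m`) and `y_{m+1} - y_m` (level `2 m + 1`)
  (`Lo`, `Blob`, `Lines`, `RedB`).
* Powers of these operators with a common multiplicity `M` give, after normalisation, operators that
  depend polynomially on `M`; at `M = 0` they substitute one line for another, or let a messenger
  pass a line up to an error of order `1/D` (`Gates`, `Prog`, `Zero`).
* So one obtains the polynomial of the graph of a 0-1 matrix, and the coefficient of it that is the
  permanent (`Edge`, `RedV`; here the evaluation of `Pool/Agent/H618R2/Skew` is used).
-/

namespace Pool.Agent.Results.MP_4ed1f9_lc.UnitIntervalMatchings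

open Pool.Agent.NPC Pool.Agent.NPC.Cnt
open Pool.Agent.H549R2.PM (pm intervalGraph)
open Pool.Agent.TH837.UI (matGraph IsAdjMatrix IsUnitInterval numPM unit_interval)
open Pool.Agent.NPC.TH837UI

/-- **Counting the perfect matchings of unit interval graphs is `#P`-complete, and the number of
satisfying assignments of a CNF can be computed in polynomial time iff they can be counted in
polynomial time.**
(1) Some polynomial-time function computes `#φ` for all CNF formulas `φ` iff some polynomial-time
function computes the number of perfect matchings of all unit interval graphs, given by their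
adjacency matrices.
(2) The same with the unit interval graphs given as lists of intervals with natural endpoints, all of
the same length.
(3) The function that maps a list of intervals of the same length to the number of perfect
matchings of its intersection graph, and all other inputs to `0`, is in `#P` and is `#P`-hard under
polynomial-time Turing reductions.
(4) The intersection graph of such a list is a unit interval graph. -/
theorem result :
    ((∃ g : List Bool → List Bool, PolyTime g ∧
        ∀ φ : CNF ℕ, g (bits φ) = (satCount φ).bits) ↔
      ∃ g : List Bool → List Bool, PolyTime g ∧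
        ∀ A : List (List Bool), IsAdjMatrix A → IsUnitInterval (matGraph A) →
          g (bits A) = (numPM A).bits) ∧
    ((∃ g : List Bool → List Bool, PolyTime g ∧
        ∀ φ : CNF ℕ, g (bits φ) = (satCount φ).bits) ↔
      ∃ g : List Bool → List Bool, PolyTime g ∧
        ∀ l : List (ℕ × ℕ), UnitLen l → g (bits l) = (pm l).bits) ∧
    (SharpP (strFn pmUnit) ∧ SharpPHard (strFn pmUnit)) ∧
    (∀ l : List (ℕ × ℕ), UnitLen l → IsUnitInterval (intervalGraph l)) := by
  refine ⟨⟨fun h => ?_, fun h => ?_⟩, ⟨fun h => ?_, fun h => ?_⟩, ⟨sharpP_pmUnit, hard_pmUnit⟩,
    unit_interval⟩
  · exact ⟨_, sharpP_of_sat h _ sharpP_numPM, fun A _ _ => by rw [strFn_bits]⟩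
  · obtain ⟨g, hg, hgf⟩ := h
    exact sat_of_unit nred_mat ⟨g, hg, fun A hA => hgf A hA.1 hA.2⟩
  · exact ⟨_, sharpP_of_sat h _ Pool.Agent.NPC.H549PM.sharpP_pm, fun l _ => by rw [strFn_bits]⟩
  · exact sat_of_unit nred_unit h

end Pool.Agent.Results.MP_4ed1f9_lc.UnitIntervalMatchings
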